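import Pool.Agent.Q116.Leonard

/-!
# Leonard pairs with beta = 2 and the equitable basis of sl₂ (MP_d63bef_al)

The statement Q1 fails over every ordered field, in particular over `ℚ` and over `ℝ`.
The counterexample is a Leonard pair on `K⁴` (`d = 3`) with eigenvalue sequences
`0, 3, 8, 15` and `0, 4, 10, 18` and first split sequence `-63, -124, -129`; the quadratic
polynomial `φ_i / (i (i - 4)) = i² + 7 i + 13` has no root in an ordered field, whereas a module
structure as in Q1 would factor it (or the second split sequence) into linear functions of `i`.
-/

namespace Pool.Agent.Results.MP_d63bef_al.OrderedFieldCounterexample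

open Q116.Leonard

/-- Over every ordered field `K` the statement Q1 is false. -/
theorem result (K : Type) [Field K] [LinearOrder K] [IsStrictOrderedRing K] :
    ¬ EquitableStatement K :=
  Q116.Leonard.main K

end Pool.Agent.Results.MP_d63bef_al.OrderedFieldCounterexample
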